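import Pool.Agent.E8helper31.EK.Stm9

/-!
# A special cubic form without section
-/

set_option autoImplicit false

namespace Pool.Agent.E8helper73.EK

open MvPolynomial Pool.Agent.R845.E3 Pool.Agent.E8helper31.EK

noncomputable section

/-- `x ^ 2 + s (Z ^ 2 - 1) y ^ 2` is anisotropic over `K[Z]` -/
theorem aniso (K : Type) [Field K] [CharZero K] (s : K) (hs : s ≠ 0) (x y : Polynomial K)
    (h : x ^ 2 + Polynomial.C s * (Polynomial.X ^ 2 - 1) * y ^ 2 = 0) : x = 0 ∧ y = 0 := by
  by_cases hy : y = 0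
  · subst hy
    refine ⟨?_, rfl⟩
    have h1 : x ^ 2 = 0 := by linear_combination h
    exact pow_eq_zero_iff (two_ne_zero) |>.1 h1
  · exfalso
    obtain ⟨u, hu⟩ : ∃ u : Polynomial K, u = Polynomial.C (-s) * (Polynomial.X + 1) := ⟨_, rfl⟩
    have h1 : x * x = (Polynomial.X - Polynomial.C 1) * (u * (y * y)) := by
      rw [hu, Polynomial.C_neg, Polynomial.C_1]
      linear_combination h
    have hu1 : ¬ u.IsRoot 1 := by
      rw [hu, Polynomial.IsRoot]
      simp only [Polynomial.eval_mul, Polynomial.eval_C, Polynomial.eval_add, Polynomial.eval_X,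
        Polynomial.eval_one]
      intro h2
      rcases mul_eq_zero.1 h2 with h2 | h2
      · exact hs (neg_eq_zero.1 h2)
      · have h3 : (2 : K) = 0 := by linear_combination h2
        exact two_ne_zero h3
    have hu0 : u ≠ 0 := fun h2 => hu1 (by rw [h2]; simp [Polynomial.IsRoot])
    have hX0 : (Polynomial.X - Polynomial.C (1 : K)) ≠ 0 := Polynomial.X_sub_C_ne_zero _
    have hyy : y * y ≠ 0 := mul_ne_zero hy hy
    have huy : u * (y * y) ≠ 0 := mul_ne_zero hu0 hyy
    have hr : (Polynomial.X - Polynomial.C 1) * (u * (y * y)) ≠ 0 := mul_ne_zero hX0 huy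
    have hxx : x * x ≠ 0 := by rw [h1]; exact hr
    have h2 := congrArg (Polynomial.rootMultiplicity 1) h1
    rw [Polynomial.rootMultiplicity_mul hxx, Polynomial.rootMultiplicity_mul hr,
      Polynomial.rootMultiplicity_mul huy, Polynomial.rootMultiplicity_mul hyy,
      Polynomial.rootMultiplicity_X_sub_C_self, Polynomial.rootMultiplicity_eq_zero hu1] at h2
    omega

/-- the degree of the norm form is even -/
theorem degN {A : Type} [CommRing A] [IsDomain A] (D : A)
    (hN : ∀ x y : A, x ^ 2 + D * y ^ 2 = 0 → x = 0 ∧ y = 0) (α β : Polynomial A)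
    (h : ¬ (α = 0 ∧ β = 0)) :
    ∃ n : ℕ, (α ^ 2 + Polynomial.C D * β ^ 2).natDegree = 2 * n ∧
      α ^ 2 + Polynomial.C D * β ^ 2 ≠ 0 := by
  obtain ⟨n, hn⟩ : ∃ n, n = max α.natDegree β.natDegree := ⟨_, rfl⟩
  have ha : α.natDegree ≤ n := by rw [hn]; exact le_max_left _ _
  have hb : β.natDegree ≤ n := by rw [hn]; exact le_max_right _ _
  have hc : (α ^ 2 + Polynomial.C D * β ^ 2).coeff (2 * n) =
      α.coeff n ^ 2 + D * β.coeff n ^ 2 := by
    rw [Polynomial.coeff_add, Polynomial.coeff_C_mul, two_mul, sq, sq,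
      Polynomial.coeff_mul_add_eq_of_natDegree_le ha ha, Polynomial.coeff_mul_add_eq_of_natDegree_le hb hb]
    ring
  have hne : α.coeff n ^ 2 + D * β.coeff n ^ 2 ≠ 0 := by
    intro h1
    obtain ⟨h2, h3⟩ := hN _ _ h1
    apply h
    rcases max_choice α.natDegree β.natDegree with h4 | h4
    · rw [h4] at hn
      rw [hn] at h2
      have h5 : α = 0 := Polynomial.leadingCoeff_eq_zero.1 h2
      refine ⟨h5, ?_⟩
      have h6 : β.natDegree ≤ 0 := by
        rw [h5, Polynomial.natDegree_zero] at hn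
        omega
      have h7 : n = 0 := by rw [hn, h5, Polynomial.natDegree_zero]
      rw [Polynomial.eq_C_of_natDegree_le_zero h6]
      rw [h7] at h3
      rw [h3, Polynomial.C_0]
    · rw [h4] at hn
      rw [hn] at h3
      have h5 : β = 0 := Polynomial.leadingCoeff_eq_zero.1 h3
      refine ⟨?_, h5⟩
      have h6 : α.natDegree ≤ 0 := by
        rw [h5, Polynomial.natDegree_zero] at hn
        omega
      have h7 : n = 0 := by rw [hn, h5, Polynomial.natDegree_zero]
      rw [Polynomial.eq_C_of_natDegree_le_zero h6]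
      rw [h7] at h2
      rw [h2, Polynomial.C_0]
  refine ⟨n, ?_, ?_⟩
  · apply le_antisymm
    · refine Polynomial.natDegree_add_le_of_degree_le ?_ ?_
      · exact (Polynomial.natDegree_pow_le).trans (by omega)
      · refine (Polynomial.natDegree_C_mul_le _ _).trans ((Polynomial.natDegree_pow_le).trans ?_)
        omega
    · apply Polynomial.le_natDegree_of_ne_zero
      rw [hc]
      exact hne
  · intro h1
    rw [h1, Polynomial.coeff_zero] at hc
    exact hne hc.symm

/-- the core -/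
theorem core {A : Type} [CommRing A] [IsDomain A] (D P : A) (hP : P ≠ 0)
    (hN : ∀ x y : A, x ^ 2 + D * y ^ 2 = 0 → x = 0 ∧ y = 0) (α β γ l : Polynomial A)
    (h : α ^ 2 + Polynomial.C D * β ^ 2 + Polynomial.C P * Polynomial.X *
      (γ ^ 2 + Polynomial.C D * l ^ 2) = 0) : α = 0 ∧ β = 0 ∧ γ = 0 ∧ l = 0 := by
  by_cases h1 : α = 0 ∧ β = 0
  · by_cases h2 : γ = 0 ∧ l = 0
    · exact ⟨h1.1, h1.2, h2.1, h2.2⟩
    · exfalso
      obtain ⟨n, -, h3⟩ := degN D hN γ l h2
      rw [h1.1, h1.2] at h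
      have h4 : Polynomial.C P * Polynomial.X * (γ ^ 2 + Polynomial.C D * l ^ 2) = 0 := by
        linear_combination h
      exact mul_ne_zero (mul_ne_zero (Polynomial.C_ne_zero.2 hP) Polynomial.X_ne_zero) h3 h4
  · exfalso
    obtain ⟨n, h3, h4⟩ := degN D hN α β h1
    have h5 : α ^ 2 + Polynomial.C D * β ^ 2 = - (Polynomial.C P * Polynomial.X *
      (γ ^ 2 + Polynomial.C D * l ^ 2)) := by linear_combination h
    by_cases h2 : γ = 0 ∧ l = 0
    · apply h4
      rw [h5, h2.1, h2.2]
      ring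
    · obtain ⟨k, h6, h7⟩ := degN D hN γ l h2
      have h8 := congrArg Polynomial.natDegree h5
      rw [h3, Polynomial.natDegree_neg, Polynomial.natDegree_mul
        (mul_ne_zero (Polynomial.C_ne_zero.2 hP) Polynomial.X_ne_zero) h7, h6,
        Polynomial.natDegree_mul (Polynomial.C_ne_zero.2 hP) Polynomial.X_ne_zero,
        Polynomial.natDegree_C, Polynomial.natDegree_X] at h8
      omega

/-- the equivalence which takes `X_j` to the variable and the other to a constant -/
def eqv (K : Type) [Field K] (j : Fin 2) :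
    MvPolynomial (Fin 2) K ≃ₐ[K] Polynomial (MvPolynomial (Fin 1) K) :=
  (renameEquiv K (Equiv.swap 0 j)).trans (finSuccEquiv K 1)

theorem aniso1 (K : Type) [Field K] [CharZero K] (s : K) (hs : s ≠ 0)
    (x y : MvPolynomial (Fin 1) K)
    (h : x ^ 2 + C s * (X 0 ^ 2 - 1) * y ^ 2 = 0) : x = 0 ∧ y = 0 := by
  obtain ⟨e, he⟩ : ∃ e, e = uniqueAlgEquiv K (Fin 1) := ⟨_, rfl⟩
  have hX : e (X 0) = Polynomial.X := by
    rw [he]
    simp [uniqueAlgEquiv]
  have hC : e (C s) = Polynomial.C s := by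
    have := e.commutes s
    rwa [algebraMap_eq] at this
  have h1 := congrArg e h
  simp only [map_add, map_mul, map_pow, map_sub, map_one, map_zero, hX, hC] at h1
  obtain ⟨h2, h3⟩ := aniso K s hs _ _ h1
  exact ⟨by simpa using h2, by simpa using h3⟩

/-- no nontrivial zero of the quadratic form -/
theorem no_zero9 (K : Type) [Field K] [CharZero K] (o p q : Fin (2 + 1))
    (hop : o ≠ p) (hoq : o ≠ q) (hpq : p ≠ q) (hq : q ≠ 0) (ca cb ce l : MvPolynomial (Fin 2) K)
    (h : yv K 2 p * ca ^ 2 + yv K 2 q * cb ^ 2 + yv K 2 p * ce ^ 2 + 2 * yv K 2 o * ca * ce +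
      yv K 2 q * (yv K 2 p ^ 2 - yv K 2 o ^ 2) * l ^ 2 = 0) :
    ca = 0 ∧ cb = 0 ∧ ce = 0 ∧ l = 0 := by
  have e0 : yv K 2 0 = 1 := rfl
  have e1 : yv K 2 1 = X 0 := rfl
  have e2 : yv K 2 2 = X 1 := rfl
  have f00 : eqv K 0 (X 0) = Polynomial.X := by
    simp [eqv, finSuccEquiv_X_zero]
  have f01 : eqv K 0 (X 1) = Polynomial.C (X 0) := by
    have : (1 : Fin 2) = Fin.succ 0 := rfl
    rw [eqv, AlgEquiv.trans_apply, renameEquiv_apply, rename_X]
    simp only [Equiv.swap_self, Equiv.refl_apply]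
    rw [this, finSuccEquiv_X_succ]
  have f10 : eqv K 1 (X 0) = Polynomial.C (X 0) := by
    have : (1 : Fin 2) = Fin.succ 0 := rfl
    rw [eqv, AlgEquiv.trans_apply, renameEquiv_apply, rename_X]
    rw [Equiv.swap_apply_left, this, finSuccEquiv_X_succ]
  have f11 : eqv K 1 (X 1) = Polynomial.X := by
    rw [eqv, AlgEquiv.trans_apply, renameEquiv_apply, rename_X]
    rw [Equiv.swap_apply_right, finSuccEquiv_X_zero]
  have g0 : ∀ j, eqv K j (yv K 2 0) = Polynomial.C 1 := fun j => by
    rw [e0, map_one, Polynomial.C_1]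
  -- the images
  obtain ⟨j, P, O, s, hs, hP0, hjq, hjp, hjo, hD⟩ : ∃ (j : Fin 2) (P O : MvPolynomial (Fin 1) K)
      (s : K), s ≠ 0 ∧ P ≠ 0 ∧ eqv K j (yv K 2 q) = Polynomial.X ∧
      eqv K j (yv K 2 p) = Polynomial.C P ∧ eqv K j (yv K 2 o) = Polynomial.C O ∧
      P ^ 2 - O ^ 2 = C s * (X 0 ^ 2 - 1) := by
    have hX0 : (X 0 : MvPolynomial (Fin 1) K) ≠ 0 := X_ne_zero _
    fin_cases q
    · exact absurd rfl hq
    · fin_cases p
      · fin_cases o
        · exact absurd rfl hop
        · exact absurd rfl hoq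
        · exact ⟨0, 1, X 0, -1, neg_ne_zero.2 one_ne_zero, one_ne_zero, f00,
            g0 _, f01, by simp⟩
      · exact absurd rfl hpq
      · fin_cases o
        · exact ⟨0, X 0, 1, 1, one_ne_zero, hX0, f00, f01,
            g0 _, by simp⟩
        · exact absurd rfl hoq
        · exact absurd rfl hop
    · fin_cases p
      · fin_cases o
        · exact absurd rfl hop
        · exact ⟨1, 1, X 0, -1, neg_ne_zero.2 one_ne_zero, one_ne_zero, f11,
            g0 _, f10, by simp⟩
        · exact absurd rfl hoq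
      · fin_cases o
        · exact ⟨1, X 0, 1, 1, one_ne_zero, hX0, f11, f10,
            g0 _, by simp⟩
        · exact absurd rfl hop
        · exact absurd rfl hoq
      · exact absurd rfl hpq
  have h1 : (yv K 2 p * ca + yv K 2 o * ce) ^ 2 + (yv K 2 p ^ 2 - yv K 2 o ^ 2) * ce ^ 2 +
      yv K 2 p * yv K 2 q * (cb ^ 2 + (yv K 2 p ^ 2 - yv K 2 o ^ 2) * l ^ 2) = 0 := by
    linear_combination yv K 2 p * h
  have h2 := congrArg (eqv K j) h1
  simp only [map_add, map_mul, map_pow, map_sub, map_zero, hjq, hjp, hjo] at h2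
  rw [← Polynomial.C_pow, ← Polynomial.C_pow, ← Polynomial.C_sub] at h2
  obtain ⟨h3, h4, h5, h6⟩ := core (P ^ 2 - O ^ 2) P hP0 (fun x y hxy => by
    rw [hD] at hxy
    exact aniso1 K s hs x y hxy) _ _ _ _ h2
  have h4' : ce = 0 := by simpa using h4
  have h5' : cb = 0 := by simpa using h5
  have h6' : l = 0 := by simpa using h6
  rw [h4'] at h3
  rw [map_zero, mul_zero, add_zero] at h3
  have h7 : eqv K j ca = 0 := (mul_eq_zero.1 h3).resolve_left (Polynomial.C_ne_zero.2 hP0)
  exact ⟨by simpa using h7, h5', h4', h6'⟩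

/-- the derivatives -/
theorem pd (K : Type) [Field K] (a b e o p q : Fin (2 + 1)) (c : Fin (2 + 1) → MvPolynomial (Fin 2) K)
    (j : Fin (2 + 1)) :
    aeval (Fin.append c (0 : Fin (2 + 1) → MvPolynomial (Fin 2) K))
      (pderiv (Fin.natAdd (2 + 1) j) (sp9 K a b e o p q)) =
    (if p = j then c a ^ 2 + c e ^ 2 else 0) + (if q = j then c b ^ 2 else 0) +
      (if o = j then 2 * c a * c e else 0) := by
  have hU : ∀ i : Fin (2 + 1), pderiv (Fin.natAdd (2 + 1) j)
      (X (Fin.castAdd (2 + 1) i) : MvPolynomial (Fin (2 + 1 + (2 + 1))) K) = 0 := fun i => by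
    rw [pderiv_X, Pi.single_eq_of_ne]
    intro h2
    have := congrArg Fin.val h2
    simp at this
    omega
  have hV : ∀ i : Fin (2 + 1), pderiv (Fin.natAdd (2 + 1) j)
      (X (Fin.natAdd (2 + 1) i) : MvPolynomial (Fin (2 + 1 + (2 + 1))) K) =
      if i = j then 1 else 0 := fun i => by
    rw [pderiv_X]
    by_cases hij : i = j
    · rw [if_pos hij, hij, Pi.single_eq_same]
    · rw [if_neg hij, Pi.single_eq_of_ne]
      intro h2
      apply hij
      have := congrArg Fin.val h2
      simp only [Fin.val_natAdd] at this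
      apply Fin.ext
      omega
  unfold sp9
  simp only [map_add, map_sub, Derivation.leibniz, Derivation.leibniz_pow, hU, hV, pderiv_C,
    smul_zero, smul_eq_mul, map_mul, map_pow, aeval_X, Fin.append_left, Fin.append_right,
    Pi.zero_apply, nsmul_eq_mul, map_natCast, aeval_C, mul_zero, zero_mul, add_zero, zero_add,
    apply_ite (aeval (Fin.append c (0 : Fin (2 + 1) → MvPolynomial (Fin 2) K))), map_one, map_zero,
    mul_ite, mul_one, map_ofNat]
  split_ifs <;> simp [algebraMap_eq] <;> ring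

theorem ani9 : S_ANI9 := by
  intro K _ _ a b e o p q hab hae hbe hop hoq hpq hq
  have hcov : ∀ i : Fin (2 + 1), i = a ∨ i = b ∨ i = e := by
    revert a b e
    decide
  rintro ⟨c, l, ⟨hl, hz⟩ | ⟨hc, hz⟩⟩
  · unfold sp9 at hz
    simp only [map_add, map_sub, map_mul, map_pow, aeval_X, Fin.append_left, Fin.append_right,
      aeval_C, algebraMap_eq] at hz
    have hC2 : (C 2 : MvPolynomial (Fin 2) K) = 2 := rfl
    rw [hC2] at hz
    have h1 : l * (yv K 2 p * c a ^ 2 + yv K 2 q * c b ^ 2 + yv K 2 p * c e ^ 2 +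
        2 * yv K 2 o * c a * c e + yv K 2 q * (yv K 2 p ^ 2 - yv K 2 o ^ 2) * l ^ 2) = 0 := by
      linear_combination hz
    have h2 := (mul_eq_zero.1 h1).resolve_left hl
    exact hl (no_zero9 K o p q hop hoq hpq hq _ _ _ _ h2).2.2.2
  · apply hc
    simp only [pd, mul_add, Finset.sum_add_distrib, mul_ite, mul_zero,
      Finset.sum_ite_eq, Finset.mem_univ, if_true] at hz
    have h2 := no_zero9 K o p q hop hoq hpq hq (c a) (c b) (c e) 0 (by linear_combination hz)
    funext i
    rcases hcov i with h | h | h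
    · rw [h]; exact h2.1
    · rw [h]; exact h2.2.1
    · rw [h]; exact h2.2.2.1

end

end Pool.Agent.E8helper73.EK
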